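import Pool.Agent.Helper47.FLG.Pde

set_option autoImplicit false

namespace Pool.Agent.Helper47.FLG

open Finset Pool.Agent.Helper47.RFn

noncomputable section

namespace DOMp

/-- the heat operator as a linear map -/
def HopL {n : ℕ} {T : ℝ} (F : FB n T) : F.B →ₗ[ℝ] F.B :=
  (F.D : F.B →ₗ[ℝ] F.B) - ∑ a, (F.H a : F.B →ₗ[ℝ] F.B) ∘ₗ (F.H a : F.B →ₗ[ℝ] F.B)

theorem Hop_eq {n : ℕ} {T : ℝ} (F : FB n T) (f : F.B) : F.Hop f = HopL F f := by
  simp [HopL, FB.Hop, FB.Lap, LinearMap.sum_apply]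

def cz {n : ℕ} (z w : Fin n → ℂ) (i j k l : Fin n) : ℝ := (z i * w j * star (z k) * star (w l)).re

def fq {n : ℕ} {T : ℝ} (F : FB n T) (S : Ix n → Ix n → Ix n → Ix n → F.B) (z w : Ix n → ℂ) : F.B :=
  ∑ i, ∑ j, ∑ k, ∑ l, cz z w i j k l • S i j k l

theorem qf_cz {n : ℕ} (R : T4 n) (z w : Fin n → ℂ) :
    qf R z w = ∑ i, ∑ j, ∑ k, ∑ l, R i j k l * cz z w i j k l := by
  unfold qf cz
  simp only [Complex.re_sum]
  refine sum_congr rfl fun i _ => sum_congr rfl fun j _ => sum_congr rfl fun k _ =>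
    sum_congr rfl fun l _ => ?_
  rw [mul_assoc, mul_assoc, mul_assoc, Complex.re_ofReal_mul, ← mul_assoc, ← mul_assoc]

theorem ev_fq {n : ℕ} {T : ℝ} (F : FB n T) (S : Ix n → Ix n → Ix n → Ix n → F.B) (z w : Ix n → ℂ)
    (x : F.Z) (t : TI T) :
    F.ev x t (fq F S z w) = qf (fun i j k l => F.ev x t (S i j k l)) z w := by
  rw [qf_cz]
  simp only [fq, map_sum, map_smul, smul_eq_mul]
  refine sum_congr rfl fun i _ => sum_congr rfl fun j _ => sum_congr rfl fun k _ =>
    sum_congr rfl fun l _ => mul_comm _ _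

theorem Hop_fq {n : ℕ} {T : ℝ} (F : FB n T) (S : Ix n → Ix n → Ix n → Ix n → F.B) (z w : Ix n → ℂ) :
    F.Hop (fq F S z w) = fq F (fun i j k l => F.Hop (S i j k l)) z w := by
  simp only [Hop_eq, fq, map_sum, map_smul]

/-- the form of the unit sphere -/
theorem qI {n : ℕ} (z w : Fin n → ℂ) : qf (Id4 n) z w =
    (∑ i, Complex.normSq (z i)) * (∑ i, Complex.normSq (w i)) -
      Complex.normSq (∑ i, z i * star (w i)) := by
  have h1 : ∀ i j k l, Id4 n i j k l = (if i = k then (1:ℝ) else 0) * (if j = l then 1 else 0) -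
      (if j = k then 1 else 0) * (if i = l then 1 else 0) := fun i j k l => by
    simp only [Id4, wdg, Matrix.one_apply]
    ring
  unfold qf
  have h2 : (∑ a, ∑ b, ∑ c, ∑ d, (Id4 n a b c d : ℂ) * z a * w b * star (z c) * star (w d)) =
      (∑ a, z a * star (z a)) * (∑ b, w b * star (w b)) -
      (∑ a, z a * star (w a)) * (∑ b, w b * star (z b)) := by
    simp only [h1, Complex.ofReal_sub, Complex.ofReal_mul, sub_mul, Finset.sum_sub_distrib,
      Finset.sum_mul_sum]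
    congr 1
    · refine sum_congr rfl fun a _ => sum_congr rfl fun b _ => ?_
      simp only [apply_ite Complex.ofReal, Complex.ofReal_one, Complex.ofReal_zero, ite_mul, mul_ite, one_mul,
        zero_mul, mul_one, mul_zero, Finset.sum_ite_eq, Finset.mem_univ, if_true]
      ring
    · refine sum_congr rfl fun a _ => sum_congr rfl fun b _ => ?_
      simp only [apply_ite Complex.ofReal, Complex.ofReal_one, Complex.ofReal_zero, ite_mul, mul_ite, one_mul,
        zero_mul, mul_one, mul_zero, Finset.sum_ite_eq, Finset.mem_univ, if_true]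
      ring
  rw [h2]
  have h3 : ∀ z : Fin n → ℂ, (∑ a, z a * star (z a)) = ((∑ i, Complex.normSq (z i) : ℝ) : ℂ) := by
    intro z
    rw [Complex.ofReal_sum]
    exact sum_congr rfl fun a _ => Complex.mul_conj _
  have h4 : (∑ b, w b * star (z b)) = star (∑ a, z a * star (w a)) := by
    rw [star_sum]
    exact sum_congr rfl fun a _ => by simp [mul_comm]
  rw [h3, h3, h4]
  have h5 : ∀ u : ℂ, u * star u = ((Complex.normSq u : ℝ) : ℂ) := fun u => Complex.mul_conj u
  rw [h5, ← Complex.ofReal_mul, ← Complex.ofReal_sub, Complex.ofReal_re]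

theorem normSq_iota {n : ℕ} {ν : Ix n → ℝ} {ι : Ix n → Fin n → ℝ} (h : Iso ν ι) (z : Fin n → ℂ) :
    ∑ i, Complex.normSq (∑ a, (ι i a : ℂ) * z a) = ∑ a, Complex.normSq (z a) := by
  have h1 : ∀ u : ℂ, ((Complex.normSq u : ℝ) : ℂ) = u * star u := fun u => (Complex.mul_conj u).symm
  have : ((∑ i, Complex.normSq (∑ a, (ι i a : ℂ) * z a) : ℝ) : ℂ) =
      ((∑ a, Complex.normSq (z a) : ℝ) : ℂ) := by
    simp only [Complex.ofReal_sum, h1]
    calc ∑ i, (∑ a, (ι i a : ℂ) * z a) * star (∑ a, (ι i a : ℂ) * z a)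
        = ∑ i, ∑ a, ∑ b, ((ι i a * ι i b : ℝ) : ℂ) * (z a * star (z b)) := by
          refine sum_congr rfl fun i _ => ?_
          rw [star_sum, Finset.sum_mul_sum]
          refine sum_congr rfl fun a _ => sum_congr rfl fun b _ => ?_
          simp
          ring
      _ = ∑ a, ∑ b, ((∑ i, ι i a * ι i b : ℝ) : ℂ) * (z a * star (z b)) := by
          rw [Finset.sum_comm]
          refine sum_congr rfl fun a _ => ?_
          rw [Finset.sum_comm]
          refine sum_congr rfl fun b _ => ?_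
          rw [Complex.ofReal_sum, Finset.sum_mul]
      _ = _ := by
          refine sum_congr rfl fun a _ => ?_
          simp only [h.orth, apply_ite Complex.ofReal, Complex.ofReal_one, Complex.ofReal_zero,
            ite_mul, one_mul, zero_mul, Finset.sum_ite_eq, Finset.mem_univ, if_true]
  exact_mod_cast this

theorem ev_I {n : ℕ} {T : ℝ} (F : FB n T) (z : F.Z) (t : TI T) :
    (fun i j k l => F.ev z t (F.I i j k l)) = wdg (Pm (F.nv z t)) (Pm (F.nv z t)) := by
  have h : ∀ i j, F.ev z t (F.P i j) = Pm (F.nv z t) i j := fun i j => by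
    simp only [FB.P, FB.dl, Pm, FB.nv, map_sub, map_mul]
    split_ifs <;> simp
  funext i j k l
  simp only [FB.I, map_sub, map_mul, h, wdg]
  ring

variable {n : ℕ} {T : ℝ}

/-- index set -/
def K1 (n : ℕ) : Set ((Ix n → ℂ) × (Ix n → ℂ)) :=
  {q | ∑ i, Complex.normSq (q.1 i) ≤ 1 ∧ ∑ i, Complex.normSq (q.2 i) ≤ 1}

theorem K1_compact (n : ℕ) : IsCompact (K1 n) := by
  apply Metric.isCompact_of_isClosed_isBounded
  · apply IsClosed.inter
    · exact isClosed_le (continuous_finsetSum _ fun i _ =>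
        Complex.continuous_normSq.comp ((continuous_apply i).comp continuous_fst)) continuous_const
    · exact isClosed_le (continuous_finsetSum _ fun i _ =>
        Complex.continuous_normSq.comp ((continuous_apply i).comp continuous_snd)) continuous_const
  · refine (Metric.isBounded_closedBall (x := (0 : (Ix n → ℂ) × (Ix n → ℂ))) (r := 1)).subset ?_
    rintro q ⟨h1, h2⟩
    have key : ∀ u : Ix n → ℂ, ∑ i, Complex.normSq (u i) ≤ 1 → ‖u‖ ≤ 1 := fun u hu => by
      rw [pi_norm_le_iff_of_nonneg zero_le_one]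
      intro i
      have h3 : Complex.normSq (u i) ≤ 1 :=
        le_trans (Finset.single_le_sum (f := fun i => Complex.normSq (u i))
          (fun j _ => Complex.normSq_nonneg _) (Finset.mem_univ i)) hu
      rw [Complex.normSq_eq_norm_sq] at h3
      nlinarith [norm_nonneg (u i)]
    rw [mem_closedBall_zero_iff, Prod.norm_def]
    exact max_le (key _ h1) (key _ h2)

theorem cont_cz (i j k l : Ix n) :
    Continuous (fun q : (Ix n → ℂ) × (Ix n → ℂ) => cz q.1 q.2 i j k l) := by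
  unfold cz
  fun_prop

theorem cont_fq (F : FB n T) (hF : F.Base) (S : Ix n → Ix n → Ix n → Ix n → F.B) :
    Continuous (fun q : ((Ix n → ℂ) × (Ix n → ℂ)) × (F.Z × TI T) =>
      F.ev q.2.1 q.2.2 (fq F S q.1.1 q.1.2)) := by
  simp only [fq, map_sum, map_smul, smul_eq_mul]
  refine continuous_finsetSum _ fun i _ => continuous_finsetSum _ fun j _ =>
    continuous_finsetSum _ fun k _ => continuous_finsetSum _ fun l _ => ?_
  exact ((cont_cz i j k l).comp continuous_fst).mul ((hF.cont (S i j k l)).comp continuous_snd)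

theorem qI_le {z w : Fin n → ℂ} (hz : ∑ i, Complex.normSq (z i) ≤ 1)
    (hw : ∑ i, Complex.normSq (w i) ≤ 1) : qf (Id4 n) z w ≤ 1 := by
  rw [qI]
  have h1 : 0 ≤ ∑ i, Complex.normSq (z i) := Finset.sum_nonneg fun i _ => Complex.normSq_nonneg _
  have h2 : 0 ≤ ∑ i, Complex.normSq (w i) := Finset.sum_nonneg fun i _ => Complex.normSq_nonneg _
  have h3 := Complex.normSq_nonneg (∑ i, z i * star (w i))
  nlinarith


/-- the family -/
def fam (F : FB n T) (cK : ℝ) (Φ : F.B) (z w : Ix n → ℂ) : F.B :=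
  cK • fq F F.R z w + fq F F.I z w * Φ + (1 - fq F F.I z w)

theorem Hop_fam (hPRD : Goal_PRD) (F : FB n T) (hF : F.Base) (cK : ℝ) (Φ : F.B) (z w : Ix n → ℂ) :
    F.Hop (fam F cK Φ z w) =
      cK • fq F (fun i j k l => F.Hop (F.R i j k l)) z w + fq F F.I z w * F.Hop Φ := by
  obtain ⟨-, -, hI, hDI, -, hfI, -⟩ := (hPRD n T F).2 hF
  have h1 : F.Hop (1 : F.B) = 0 := by simp [FB.Hop, FB.Lap]
  have h2 : ∀ i j k l, F.Hop (F.I i j k l) = 0 := fun i j k l => by
    simp [FB.Hop, FB.Lap, hI, hDI]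
  have h4 : fq F (fun i j k l => F.Hop (F.I i j k l)) z w = 0 := by simp [fq, h2]
  have h5 : F.Hop (fq F F.I z w * Φ) = fq F F.I z w * F.Hop Φ := by
    have e1 : fq F F.I z w * Φ = fq F (fun i j k l => Φ * F.I i j k l) z w := by
      simp only [fq, Finset.sum_mul, smul_mul_assoc]
      refine sum_congr rfl fun i _ => sum_congr rfl fun j _ => sum_congr rfl fun k _ =>
        sum_congr rfl fun l _ => ?_
      rw [mul_comm Φ]
    have e2 : fq F F.I z w * F.Hop Φ = fq F (fun i j k l => F.Hop Φ * F.I i j k l) z w := by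
      simp only [fq, Finset.sum_mul, smul_mul_assoc]
      refine sum_congr rfl fun i _ => sum_congr rfl fun j _ => sum_congr rfl fun k _ =>
        sum_congr rfl fun l _ => ?_
      rw [mul_comm (F.Hop Φ)]
    rw [e1, e2, Hop_fq]
    simp only [hfI]
  have h3 : F.Hop (fam F cK Φ z w) = cK • F.Hop (fq F F.R z w) + F.Hop (fq F F.I z w * Φ) +
      (F.Hop 1 - F.Hop (fq F F.I z w)) := by
    simp only [fam, Hop_eq, map_add, map_sub, map_smul]
  rw [h3, h1, h5, Hop_fq F F.I, h4, Hop_fq]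
  simp

theorem cont_fam (F : FB n T) (hF : F.Base) (cK : ℝ) (Φ : F.B) :
    Continuous (fun q : (K1 n) × (F.Z × TI T) =>
      F.ev q.2.1 q.2.2 (fam F cK Φ q.1.1.1 q.1.1.2)) := by
  simp only [fam, map_add, map_sub, map_one, map_mul, map_smul, smul_eq_mul]
  have c : Continuous (fun q : (K1 n) × (F.Z × TI T) =>
      ((q.1.1, q.2) : ((Ix n → ℂ) × (Ix n → ℂ)) × (F.Z × TI T))) := by fun_prop
  have cI := (cont_fq F hF F.I).comp c
  have cR := (cont_fq F hF F.R).comp c
  have cP : Continuous (fun q : (K1 n) × (F.Z × TI T) => F.ev q.2.1 q.2.2 Φ) :=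
    (hF.cont Φ).comp continuous_snd
  exact ((continuous_const.mul cR).add (cI.mul cP)).add (continuous_const.sub cI)

theorem ev_fam (hRP2 : Goal_RP2) (hRP3 : Goal_RP3) (F : FB n T) (cK : ℝ) (Φ : F.B) (x : F.Z)
    (t : TI T) (ι : Ix n → Fin n → ℝ) (hι : Iso (F.nv x t) ι)
    (h2 : Hor (F.nv x t) (F.rv x t)) (z w : Ix n → ℂ) :
    F.ev x t (fam F cK Φ z w) =
      cK * qf (pull ι (F.rv x t)) (pullv ι z) (pullv ι w) +
        qf (Id4 n) (pullv ι z) (pullv ι w) * F.ev x t Φ +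
        (1 - qf (Id4 n) (pullv ι z) (pullv ι w)) := by
  obtain ⟨-, -, -, -, -, -, -, q, -⟩ := hRP2 n _ ι _ hι h2
  obtain ⟨e1, e2, -⟩ := hRP3 n _ ι hι
  obtain ⟨-, -, -, -, -, -, -, q', -⟩ := hRP2 n _ ι _ hι e2
  unfold fam
  rw [map_add, map_add, map_sub, map_one, map_mul, map_smul, ev_fq, ev_fq, ev_I, q' z w, e1,
    smul_eq_mul]
  show cK * qf (F.rv x t) z w + _ + _ = _
  rw [q z w]

end DOMp

open DOMp in
theorem g_DOM (hHSQ : G_HSQ) (hMP3 : Goal_MP3) (hEVG : G_EVG) (hGRW : G_GRW) (hNW : G_NW)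
    (hFG1 : G_FG1) (hFG2 : G_FG2) (hRP1 : Goal_RP1) (hRP2 : Goal_RP2) (hRP3 : Goal_RP3)
    (hRP4 : Goal_RP4) (hLN : Goal_LN) (hRIC : Goal_RIC) (hPRD : Goal_PRD) (hNRB : Goal_NRB) :
    G_DOM := by
  intro n hn
  obtain ⟨C, hC, hH⟩ := hHSQ n hn
  obtain ⟨CN, -, hN⟩ := hNRB n hn
  obtain ⟨N3, hN3⟩ : ∃ N3 : ℝ, N3 = 2 * (n : ℝ) ^ 3 := ⟨_, rfl⟩
  have hN3p : 0 < N3 := by rw [hN3]; positivity
  obtain ⟨A, hA⟩ : ∃ A : ℝ, A = (C ^ 2 + 1) * N3 := ⟨_, rfl⟩
  have hAp : 0 < A := by rw [hA]; positivity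
  obtain ⟨cg, hcg⟩ : ∃ cg : ℝ, cg = 16 * A + N3 * C := ⟨_, rfl⟩
  obtain ⟨cl, hcl⟩ : ∃ cl : ℝ, cl = A + N3 * C + 1 := ⟨_, rfl⟩
  obtain ⟨cb, hcb⟩ : ∃ cb : ℝ, cb = N3 * C := ⟨_, rfl⟩
  obtain ⟨ct, hct⟩ : ∃ ct : ℝ, ct = A := ⟨_, rfl⟩
  have hcgp : 0 < cg := by rw [hcg]; positivity
  have hclp : 0 < cl := by rw [hcl]; positivity
  have hcbp : 0 < cb := by rw [hcb]; positivity
  have hctp : 0 < ct := by rw [hct]; exact hAp
  refine ⟨cg + cl + cb + ct, by positivity, ?_⟩
  intro T F hF hRF l0 hl0 hlam hFG ε K b hε hK hb hSf w hIni hw z0 t0 ι0 hι0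
  have hbase := hF.toBase
  obtain ⟨⟨y, hy⟩, hyH⟩ := hH T F hF hRF (fun z t => lt_of_lt_of_le hl0 (hlam z t)) hFG
  have hyH := hyH y hy
  obtain ⟨-, -, -, -, -, hHor, -⟩ := hRIC n T F hF
  obtain ⟨qa, qs, -⟩ := hLN n
  set Φ : F.B := (cl * ε) • F.lam + algebraMap ℝ F.B (cb * K * b) +
    (ct * (K ^ 2 * b ^ 2 / ε)) • F.tt - C • y - w with hΦ
  have hnu : ∀ z t, ∑ i, F.nv z t i ^ 2 = 1 := fun z t => by
    have := congrArg (F.ev z t) hbase.nunu
    simpa [FB.nv, map_sum, map_pow] using this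
  -- facts at a point
  have hEV : ∀ z t ι, Iso (F.nv z t) ι →
      Hor (F.nv z t) (fun i j k l => F.ev z t (F.Hop (F.R i j k l))) ∧
      pull ι (fun i j k l => F.ev z t (F.Hop (F.R i j k l))) = (2 : ℝ) • Q (pull ι (F.rv z t)) ∧
      F.ev z t F.lam = lam (pull ι (F.rv z t)) ∧ F.ev z t (hB F) = hh (pull ι (F.rv z t)) := by
    intro z t ι hι
    obtain ⟨e1, e2, e3, e4, e5, e6, e7⟩ :=
      hEVG n (by omega) T F hF hRF 0 (fun a => map_zero _) z t ι hι
    have hS : ∀ i j k l, Sg F 0 i j k l = F.R i j k l := fun i j k l => by simp [Sg]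
    have e4' := e4 _ rfl
    simp only [hS, map_zero, zero_smul, add_zero, mul_zero, sub_zero, ne_eq, OfNat.ofNat_ne_zero,
      not_false_eq_true, zero_pow] at e3 e4'
    exact ⟨e3, e4', e5, e6⟩
  have hqI : ∀ z t ι, Iso (F.nv z t) ι → ∀ z' w', 0 ≤ qf (Id4 n) z' w' := by
    intro z t ι hι z' w'
    have h1 := hFG z t ι hι
    have h2 := (hFG1 n).2.1 0 _ le_rfl h1
    have h3 := (hFG1 n).2.2.1 1 _ zero_le_one h2
    have h4 := ((hNW n hn).2.1 _ h3).2 z' w'
    rw [qa, qs, qs] at h4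
    simpa using h4
  have hq0 : ∀ z t ι, Iso (F.nv z t) ι → ∀ z' w', 0 ≤ qf (pull ι (F.rv z t)) z' w' :=
    fun z t ι hι z' w' => ((hNW n hn).2.1 _ (hFG z t ι hι)).2 z' w'
  have hhh : ∀ z t ι, Iso (F.nv z t) ι → 0 ≤ hh (pull ι (F.rv z t)) ∧
      Real.sqrt (hh (pull ι (F.rv z t))) ≤ N3 * F.ev z t F.lam := by
    intro z t ι hι
    have h1 := (hFG2 n hn _ (hFG z t ι hι)).2.2.2.2.2.2.2.2.1
    obtain ⟨-, -, e5, -⟩ := hEV z t ι hι
    rw [← e5] at h1
    have h0 : 0 ≤ F.ev z t F.lam := le_trans hl0.le (hlam z t)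
    refine ⟨Finset.sum_nonneg fun i _ => Finset.sum_nonneg fun j _ => sq_nonneg _, ?_⟩
    apply Real.sqrt_le_iff.2
    refine ⟨by positivity, ?_⟩
    rw [hN3]
    calc _ ≤ _ := h1
      _ = _ := by ring
  have hΦe : ∀ z (t : TI T), F.ev z t Φ = cl * ε * F.ev z t F.lam + cb * K * b +
      ct * (K ^ 2 * b ^ 2 / ε) * t - C * F.ev z t y - F.ev z t w := by
    intro z t
    rw [hΦ, map_sub, map_sub, map_add, map_add, map_smul, map_smul, map_smul, AlgHom.commutes,
      hbase.tt_ev]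
    simp
  -- bound of `y`
  have hyb : ∀ z t ι, Iso (F.nv z t) ι → 0 ≤ F.ev z t y ∧
      F.ev z t y ≤ N3 * Real.sqrt (hh (pull ι (F.rv z t))) := by
    intro z t ι hι
    have hlp : 0 < F.ev z t F.lam := lt_of_lt_of_le hl0 (hlam z t)
    obtain ⟨h1, h2⟩ := hhh z t ι hι
    obtain ⟨-, -, -, e6⟩ := hEV z t ι hι
    rw [hy z t, e6]
    refine ⟨div_nonneg h1 hlp.le, ?_⟩
    rw [div_le_iff₀ hlp]
    have h3 := Real.mul_self_sqrt h1
    have h4 := Real.sqrt_nonneg (hh (pull ι (F.rv z t)))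
    nlinarith
  have : CompactSpace (DOMp.K1 n) := isCompact_iff_compactSpace.1 (K1_compact n)
  have hmain : ∀ (k : K1 n) z (t : TI T), 0 < F.ev z t (fam F (cg * K) Φ k.1.1 k.1.2) := by
    intro k z t
    refine hMP3 n T F hbase (DOMp.K1 n) (fun k => fam F (cg * K) Φ k.1.1 k.1.2)
      (cont_fam F hbase (cg * K) Φ) 0 t le_rfl t.2.2 ?_ ?_ k z t t.2.1 le_rfl
    · obtain ⟨δ, hδ, -, hδw⟩ := hIni (ε * l0 / 2) (by positivity)
      refine ⟨δ, hδ, fun k z t _ ht => ?_⟩
      have hwt := hδw z t (by simpa using ht)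
      rw [map_neg] at hwt
      obtain ⟨ι, hι⟩ := hRP1 n (F.nv z t) (hnu z t)
      rw [ev_fam hRP2 hRP3 F (cg * K) Φ z t ι hι (hHor z t), hΦe]
      obtain ⟨-, -, -, -, -, -, -, -, -, -, nn, qle⟩ := hRP3 n _ ι hι
      have q1 : qf (Id4 n) (pullv ι k.1.1) (pullv ι k.1.2) ≤ 1 :=
        (qle _ _).trans (qI_le k.2.1 k.2.2)
      have q0 := hqI z t ι hι (pullv ι k.1.1) (pullv ι k.1.2)
      have r0 := hq0 z t ι hι (pullv ι k.1.1) (pullv ι k.1.2)
      have s0 := hSf z t ι hι (pullv ι k.1.1) (pullv ι k.1.2)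
      obtain ⟨y0, y1⟩ := hyb z t ι hι
      have hl := hlam z t
      set q := qf (Id4 n) (pullv ι k.1.1) (pullv ι k.1.2)
      set r := qf (pull ι (F.rv z t)) (pullv ι k.1.1) (pullv ι k.1.2)
      set sq := Real.sqrt (hh (pull ι (F.rv z t)))
      set L := F.ev z t F.lam
      set Y := F.ev z t y
      set W := F.ev z t w
      have ht0 : (0 : ℝ) < t := t.2.1
      have a1 : C * Y * q ≤ N3 * C * ((ε * L + K * b) * q + K * r) := by
        calc C * Y * q ≤ C * (N3 * sq) * q := by gcongr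
          _ = N3 * C * (sq * q) := by ring
          _ ≤ _ := by gcongr
      have a2 : 0 ≤ ct * (K ^ 2 * b ^ 2 / ε) * t * q := by positivity
      have a3 : ε * l0 ≤ ε * L := by gcongr
      have a4 : 0 ≤ 16 * A * K * r := by positivity
      have a5 : 0 ≤ A * (ε * L) * q := by
        have : 0 ≤ L := le_trans hl0.le hl
        positivity
      have a6 : ε * l0 / 2 * q ≤ (ε * L - W) * q := by
        apply mul_le_mul_of_nonneg_right _ q0
        linarith
      have a7 : 0 < ε * l0 / 2 := by positivity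
      have a8 : 0 < ε * l0 / 2 * q + (1 - q) := by
        rcases q0.eq_or_lt with h | h
        · rw [← h]; norm_num
        · have : 0 < ε * l0 / 2 * q := by positivity
          linarith
      have a9 : cg * K * r + q * (cl * ε * L + cb * K * b + ct * (K ^ 2 * b ^ 2 / ε) * t - C * Y - W) +
          (1 - q) = (16 * A * K * r) + (N3 * C * ((ε * L + K * b) * q + K * r) - C * Y * q) +
            A * (ε * L) * q + ct * (K ^ 2 * b ^ 2 / ε) * t * q + (ε * L - W) * q + (1 - q) := by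
        rw [hcg, hcl, hcb]
        ring
      rw [a9]
      linarith
    · intro k z t' ht0 htT hz hall
      obtain ⟨ι, hι⟩ := hRP1 n (F.nv z t') (hnu z t')
      obtain ⟨-, -, -, -, -, -, -, -, pz, -, nn, qle⟩ := hRP3 n _ ι hι
      obtain ⟨e3, e4, e5, e6⟩ := hEV z t' ι hι
      have q1 : qf (Id4 n) (pullv ι k.1.1) (pullv ι k.1.2) ≤ 1 :=
        (qle _ _).trans (qI_le k.2.1 k.2.2)
      have q0 := hqI z t' ι hι (pullv ι k.1.1) (pullv ι k.1.2)
      have hcurv : IsCurv (pull ι (F.rv z t')) := (hFG z t' ι hι).1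
      have hlp : 0 < F.ev z t' F.lam := lt_of_lt_of_le hl0 (hlam z t')
      -- all pairs
      have hpair : ∀ z' w', 0 ≤ cg * K * qf (pull ι (F.rv z t')) z' w' +
          qf (Id4 n) z' w' * F.ev z t' Φ := by
        intro z' w'
        by_cases hq : qf (Id4 n) z' w' = 0
        · rw [((hRP4 n).2.1 z' w').1 hq _ hcurv, hq]
          simp
        · obtain ⟨u, v, n1, n2, -, n4, n5⟩ := ((hRP4 n).2.1 z' w').2 hq
          have e1 := hall ⟨(fun i => ∑ a, (ι i a : ℂ) * u a, fun i => ∑ a, (ι i a : ℂ) * v a), by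
            refine ⟨?_, ?_⟩
            · show ∑ i, Complex.normSq (∑ a, (ι i a : ℂ) * u a) ≤ 1
              rw [normSq_iota hι, n1]
            · show ∑ i, Complex.normSq (∑ a, (ι i a : ℂ) * v a) ≤ 1
              rw [normSq_iota hι, n2]⟩ z
          have e2 : F.ev z t' (fam F (cg * K) Φ (fun i => ∑ a, (ι i a : ℂ) * u a)
              (fun i => ∑ a, (ι i a : ℂ) * v a)) =
              cg * K * qf (pull ι (F.rv z t')) u v + F.ev z t' Φ := by
            rw [ev_fam hRP2 hRP3 F (cg * K) Φ z t' ι hι (hHor z t'), pz, pz, n4]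
            ring
          have e3' : 0 ≤ F.ev z t' (fam F (cg * K) Φ (fun i => ∑ a, (ι i a : ℂ) * u a)
              (fun i => ∑ a, (ι i a : ℂ) * v a)) := e1
          rw [e2] at e3'
          rw [n5 _ hcurv]
          have := mul_nonneg (hqI z t' ι hι z' w') e3'
          calc (0 : ℝ) ≤ _ := this
            _ = _ := by ring
      have hz' : F.ev z t' (fam F (cg * K) Φ k.1.1 k.1.2) = 0 := hz
      rw [ev_fam hRP2 hRP3 F (cg * K) Φ z t' ι hι (hHor z t')] at hz'
      have h1 := hpair (pullv ι k.1.1) (pullv ι k.1.2)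
      have hs1 : qf (Id4 n) (pullv ι k.1.1) (pullv ι k.1.2) = 1 := by linarith
      have hg0 := hq0 z t' ι hι (pullv ι k.1.1) (pullv ι k.1.2)
      have hSfp := hSf z t' ι hι (pullv ι k.1.1) (pullv ι k.1.2)
      rw [hs1] at hz' hSfp
      have hGR := hGRW n hn (pull ι (F.rv z t')) (qf (pull ι (F.rv z t')) (pullv ι k.1.1) (pullv ι k.1.2))
        (pullv ι k.1.1) (pullv ι k.1.2) (hFG z t' ι hι) hg0 (by
          intro z' w'
          have h2 := hpair z' w'
          have h3 : F.ev z t' Φ = -(cg * K * qf (pull ι (F.rv z t')) (pullv ι k.1.1) (pullv ι k.1.2)) := by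
            linarith
          rw [h3] at h2
          have h4 : 0 < cg * K := by positivity
          have h5 : 0 ≤ cg * K * (qf (pull ι (F.rv z t')) z' w' -
              qf (pull ι (F.rv z t')) (pullv ι k.1.1) (pullv ι k.1.2) * qf (Id4 n) z' w') := by
            calc (0 : ℝ) ≤ _ := h2
              _ = _ := by ring
          have h6 := nonneg_of_mul_nonneg_right h5 h4
          linarith) (by rw [hs1, mul_one])
      rw [hs1, ← e5] at hGR
      show 0 < F.ev z t' (F.Hop (fam F (cg * K) Φ k.1.1 k.1.2))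
      rw [Hop_fam hPRD F hbase, map_add, map_smul, map_mul, ev_fq, ev_fq, ev_I, smul_eq_mul]
      obtain ⟨-, -, -, -, -, -, -, qq, -⟩ := hRP2 n _ ι _ hι e3
      obtain ⟨i1, i2, -⟩ := hRP3 n _ ι hι
      obtain ⟨-, -, -, -, -, -, -, q', -⟩ := hRP2 n _ ι _ hι i2
      rw [qq, e4, qs, q', i1, hs1]
      -- the heat operator of `Φ`
      have hHΦ : F.Hop Φ = (cl * ε) • F.Hop F.lam + (ct * (K ^ 2 * b ^ 2 / ε)) • (1 : F.B)
          - C • F.Hop y - F.Hop w := by
        have t1 : F.Hop F.tt = 1 := by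
          simp [FB.Hop, FB.Lap, hbase.tt_D, hbase.tt_H]
        have t2 : F.Hop (algebraMap ℝ F.B (cb * K * b)) = 0 := by
          simp [FB.Hop, FB.Lap]
        have t3 : F.Hop Φ = (cl * ε) • F.Hop F.lam + F.Hop (algebraMap ℝ F.B (cb * K * b)) +
            (ct * (K ^ 2 * b ^ 2 / ε)) • F.Hop F.tt - C • F.Hop y - F.Hop w := by
          simp only [hΦ, Hop_eq, map_add, map_sub, map_smul]
        rw [t3, t1, t2, add_zero]
      have hHe : F.ev z t' (F.Hop Φ) = cl * ε * F.ev z t' (F.Hop F.lam) +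
          ct * (K ^ 2 * b ^ 2 / ε) - C * F.ev z t' (F.Hop y) - F.ev z t' (F.Hop w) := by
        rw [hHΦ, map_sub, map_sub, map_add, map_smul, map_smul, map_smul, map_one]
        simp
      have hNl := (hN T F hF hRF z t' hlp.le).2.1
      have hyy := hyH z t'
      have hww := hw z t'
      obtain ⟨hh0, hh1⟩ := hhh z t' ι hι
      rw [hHe]
      rw [e6] at hyy hww
      have hsq0 := Real.sqrt_nonneg (hh (pull ι (F.rv z t')))
      have hsq := Real.mul_self_sqrt hh0
      set g := qf (pull ι (F.rv z t')) (pullv ι k.1.1) (pullv ι k.1.2)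
      set L := F.ev z t' F.lam
      set sq := Real.sqrt (hh (pull ι (F.rv z t')))
      set H := hh (pull ι (F.rv z t'))
      set Gr := F.ev z t' (F.gg F.lam F.lam) / L
      have b1 : H ≤ N3 * L * (ε * L + K * b + K * g) := by
        rw [← hsq]
        have : sq ≤ ε * L + K * b + K * g := by linarith
        exact mul_le_mul hh1 this hsq0 (by positivity)
      have b2 : K * b * L ≤ ε * L ^ 2 + K ^ 2 * b ^ 2 / ε := by
        have h1 : 0 ≤ (ε * L - K * b) ^ 2 / ε + K * b * L := by positivity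
        have h2 : (ε * L - K * b) ^ 2 / ε = ε * L ^ 2 - 2 * (K * b * L) + K ^ 2 * b ^ 2 / ε := by
          field_simp
          ring
        rw [h2] at h1
        linarith
      have b3 : (C ^ 2 + 1) * H ≤ A * (2 * (ε * L ^ 2) + K ^ 2 * b ^ 2 / ε + K * g * L) := by
        calc (C ^ 2 + 1) * H ≤ (C ^ 2 + 1) * (N3 * L * (ε * L + K * b + K * g)) := by gcongr
          _ = A * (ε * L ^ 2 + K * b * L + K * g * L) := by rw [hA]; ring
          _ ≤ _ := by
            apply mul_le_mul_of_nonneg_left _ hAp.le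
            linarith
      have b4 : cg * K * (2 * (1 / 32 * L * g * 1)) ≤ cg * K * (2 * qf (Q (pull ι (F.rv z t')))
          (pullv ι k.1.1) (pullv ι k.1.2)) := by
        have : 0 < cg * K := by positivity
        apply mul_le_mul_of_nonneg_left _ this.le
        linarith
      have b5 : A * (K * g * L) ≤ cg * K * (2 * (1 / 32 * L * g * 1)) := by
        have : 0 ≤ N3 * C * (K * g * L) := by positivity
        rw [hcg]
        nlinarith
      have b6 : cl * ε * (2 * L ^ 2) ≤ cl * ε * F.ev z t' (F.Hop F.lam) := by gcongr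
      have b7 : A * (2 * (ε * L ^ 2)) < cl * ε * (2 * L ^ 2) := by
        have h1 : 0 < (N3 * C + 1) * (2 * (ε * L ^ 2)) := by positivity
        rw [hcl]
        linarith
      have b8 : ct * (K ^ 2 * b ^ 2 / ε) = A * (K ^ 2 * b ^ 2 / ε) := by rw [hct]
      rw [b8]
      linarith
  -- conclusion
  intro z' w'
  obtain ⟨y0, -⟩ := hyb z0 t0 ι0 hι0
  obtain ⟨-, -, -, -, -, -, -, -, pz, -, nn, qle⟩ := hRP3 n _ ι0 hι0
  have hcurv : IsCurv (pull ι0 (F.rv z0 t0)) := (hFG z0 t0 ι0 hι0).1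
  by_cases hq : qf (Id4 n) z' w' = 0
  · rw [((hRP4 n).2.1 z' w').1 hq _ hcurv, hq]
    simp
  · obtain ⟨u, v, n1, n2, -, n4, n5⟩ := ((hRP4 n).2.1 z' w').2 hq
    have e1 := hmain ⟨(fun i => ∑ a, (ι0 i a : ℂ) * u a, fun i => ∑ a, (ι0 i a : ℂ) * v a), by
      refine ⟨?_, ?_⟩
      · show ∑ i, Complex.normSq (∑ a, (ι0 i a : ℂ) * u a) ≤ 1
        rw [normSq_iota hι0, n1]
      · show ∑ i, Complex.normSq (∑ a, (ι0 i a : ℂ) * v a) ≤ 1
        rw [normSq_iota hι0, n2]⟩ z0 t0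
    have e2 : F.ev z0 t0 (fam F (cg * K) Φ (fun i => ∑ a, (ι0 i a : ℂ) * u a)
        (fun i => ∑ a, (ι0 i a : ℂ) * v a)) =
        cg * K * qf (pull ι0 (F.rv z0 t0)) u v + F.ev z0 t0 Φ := by
      rw [ev_fam hRP2 hRP3 F (cg * K) Φ z0 t0 ι0 hι0 (hHor z0 t0), pz, pz, n4]
      ring
    have e3 : 0 < cg * K * qf (pull ι0 (F.rv z0 t0)) u v + F.ev z0 t0 Φ := by
      rw [← e2]; exact e1
    rw [hΦe] at e3
    rw [n5 _ hcurv]
    have r0 := hq0 z0 t0 ι0 hι0 u v
    have hl : 0 ≤ F.ev z0 t0 F.lam := le_trans hl0.le (hlam z0 t0)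
    have ht0 : (0 : ℝ) < t0 := t0.2.1
    have q0 := hqI z0 t0 ι0 hι0 z' w'
    set g := qf (pull ι0 (F.rv z0 t0)) u v
    set q := qf (Id4 n) z' w'
    set L := F.ev z0 t0 F.lam
    have hCy : 0 ≤ C * F.ev z0 t0 y := by positivity
    have k1 : F.ev z0 t0 w ≤ (cg + cl + cb + ct) *
        (ε * L + K * b + K ^ 2 * b ^ 2 / ε * t0 + K * g) := by
      have p1 : 0 ≤ ε * L := by positivity
      have p2 : 0 ≤ K * b := by positivity
      have p3 : 0 ≤ K ^ 2 * b ^ 2 / ε * t0 := by positivity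
      have p4 : 0 ≤ K * g := by positivity
      have p5 : 0 ≤ (cg + cb + ct) * (ε * L) := by positivity
      have p6 : 0 ≤ (cg + cl + ct) * (K * b) := by positivity
      have p7 : 0 ≤ (cg + cl + cb) * (K ^ 2 * b ^ 2 / ε * t0) := by positivity
      have p8 : 0 ≤ (cl + cb + ct) * (K * g) := by positivity
      linarith
    calc F.ev z0 t0 w * q ≤ ((cg + cl + cb + ct) *
        (ε * L + K * b + K ^ 2 * b ^ 2 / ε * t0 + K * g)) * q :=
          mul_le_mul_of_nonneg_right k1 q0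
      _ = _ := by ring

end

end Pool.Agent.Helper47.FLG
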